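import Pool.Agent.Helper4.S7.StD2

/-!
# Project W7 (MP_1d384c_nt), module Cert4: the leading forms of `V8`, weight 8

All terms are reduced modulo `7` and `49`; products of two lists are summed without forming the list of the products.
-/

set_option autoImplicit false
set_option maxRecDepth 100000

namespace Pool.Agent.Helper60.S7

open Pool.Agent.Helper4.S7 Pool.Agent.Helper84.S7 Pool.Agent.Helper52.S7 Pool.Agent.Helper76.S7

/-! ### Fast evaluation -/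

/-- a term modulo `7` and `49` -/
private abbrev TN : Type := ℕ × ℕ × ℕ × ℕ × ℕ

/-- reduction of a term -/
private def red (t : Tm) : TN :=
  ((t.1 % 7).toNat, (t.2.1 % 49).toNat, (t.2.2.1 % 49).toNat, (t.2.2.2.1 % 49).toNat, (t.2.2.2.2 % 49).toNat)

/-- table of `a ^ 41` modulo `49`, six bits each -/
private def TI : ℕ := 24059978155641047956010698262879969005530212936151222086824559049847115178256117040255040

/-- table of the binomial coefficients modulo `7`, nine entries of three bits each -/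
private def TC : ℕ := 40688505965397506404326801937264012460009400157957356817790653818845170489013206471817221671760884989355204081471026527716254801198730882087009590787896161345793771119059878561751495339204987075332050419466960143011468858199328052175134587769252674015932073748572561798318066937513139094566090868315431476274070581905142729245879845645700350197134769483528293847493357727040778882247059428450762753

/-- table of the inverses of the roots of unity by the residue modulo `7`, six bits each -/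
private def TO : ℕ := 3332329250899

/-- table of the powers with exponent `0` of the roots of unity -/
private def T0 : ℕ := 299593

/-- table of the powers with exponent `2` of the roots of unity -/
private def T2 : ℕ := 402698

/-- evaluates the natural number first -/
private noncomputable def frc {α : Type} (n : ℕ) (f : ℕ → α) : α :=
  Nat.rec (motive := fun _ => α) (f 0) (fun k _ => f (k + 1)) n

private theorem frc_eq {α : Type} (n : ℕ) (f : ℕ → α) : frc n f = f n := by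
  cases n <;> rfl

/-- binomial coefficient modulo `7` -/
private def ch (x i : ℕ) : ℕ := (TC >>> (27 * x + 3 * i)) % 8

/-- the value of the product of two terms -/
private noncomputable def valN (OC a k j : ℕ) (u v : TN) : ℕ :=
  frc ((u.2.1 * v.2.1 + 7 * (u.2.2.1 * v.2.2.2.1)) % 49) fun A =>
  frc ((u.2.1 * v.2.2.1 + u.2.2.1 * v.2.2.2.2) % 49) fun B =>
  frc ((u.2.2.2.1 * v.2.1 + u.2.2.2.2 * v.2.2.2.1) % 49) fun C =>
  frc ((7 * (u.2.2.2.1 * v.2.2.1) + u.2.2.2.2 * v.2.2.2.2) % 49) fun D =>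
  frc ((TI >>> (6 * A)) % 64) fun I =>
  frc (((A * D + 42 * (B * C)) * (I * I)) % 49) fun l =>
  frc (l % 7) fun r =>
  frc ((TO >>> (6 * r)) % 64) fun o =>
  (u.1 * v.1 * ((OC >>> (3 * r)) % 8) * (ch ((C * I * o) % 49) a * ch ((l * o % 49) / 7) k * ch ((B * I) % 49) j)) % 7

/-- sum over a list -/
private noncomputable def sumN {α : Type} (F : α → ℕ) (L : List α) : ℕ :=
  List.rec (motive := fun _ => ℕ) 0 (fun x _ r => Nat.add (F x) r) L

/-- sum over all products -/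
private noncomputable def W (OC a k j : ℕ) (L M : List TN) : ℕ :=
  sumN (fun u => sumN (fun v => valN OC a k j u v) M) L

/-- reduced rows of `T_3` -/
private def T3N : Fin 2 → Fin 2 → List TN
  | 0, 0 => [(6, 1, 48, 1, 45), (1, 1, 0, 0, 3), (1, 1, 0, 1, 3), (1, 3, 48, 0, 1), (1, 3, 0, 0, 1), (1, 3, 1, 0, 1)]
  | 0, 1 => [(1, 1, 48, 1, 45), (1, 1, 0, 48, 3)]
  | 1, 0 => [(6, 1, 48, 1, 45), (1, 1, 0, 0, 3), (1, 1, 0, 1, 3), (6, 1, 1, 0, 3), (6, 3, 46, 1, 43), (1, 3, 0, 1, 1), (1, 4, 48, 1, 48), (6, 4, 3, 1, 6)]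
  | 1, 1 => [(1, 1, 48, 1, 45), (1, 1, 0, 48, 3), (1, 1, 1, 0, 3), (1, 3, 48, 0, 1)]

/-- reduced rows of `T_5` -/
private def T5N : Fin 2 → Fin 2 → List TN
  | 0, 0 => [(6, 1, 48, 1, 47), (1, 1, 0, 48, 5), (1, 1, 0, 0, 5), (1, 1, 0, 1, 5), (6, 1, 1, 48, 47), (1, 2, 48, 48, 6), (6, 2, 1, 48, 48), (1, 5, 46, 0, 1), (1, 5, 47, 0, 1), (1, 5, 48, 0, 1), (1, 5, 0, 0, 1), (1, 5, 1, 0, 1)]
  | 0, 1 => [(6, 2, 48, 48, 6), (6, 2, 48, 1, 48), (6, 5, 46, 0, 1), (6, 5, 47, 0, 1)]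
  | 1, 0 => [(6, 1, 48, 1, 47), (1, 1, 0, 48, 5), (1, 1, 0, 0, 5), (1, 1, 0, 1, 5), (6, 1, 1, 48, 47), (6, 1, 2, 0, 5), (1, 2, 48, 48, 6), (6, 2, 1, 48, 48), (6, 3, 44, 1, 39), (1, 3, 47, 1, 46), (1, 4, 46, 1, 45), (6, 4, 5, 1, 10), (1, 5, 46, 0, 1), (6, 5, 2, 0, 1), (1, 11, 43, 3, 38), (6, 11, 5, 3, 10)]
  | 1, 1 => [(1, 1, 2, 0, 5), (6, 2, 48, 48, 6), (6, 2, 48, 1, 48), (6, 3, 47, 1, 46), (6, 4, 46, 1, 45), (6, 5, 46, 0, 1), (6, 10, 44, 3, 39), (6, 11, 43, 3, 38)]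

/-- reduced multipliers -/
private def M8N : Fin 2 → Fin 2 → List TN
  | 0, 0 => [(2, 2, 47, 0, 3), (6, 2, 46, 2, 48), (6, 1, 1, 46, 47), (4, 1, 46, 47, 48), (5, 1, 45, 1, 3), (6, 2, 48, 1, 3), (6, 1, 1, 2, 3), (5, 1, 1, 3, 48), (5, 1, 48, 48, 45), (1, 4, 4, 0, 48), (4, 1, 45, 0, 3), (1, 2, 1, 1, 48), (5, 1, 0, 46, 3), (5, 3, 4, 0, 2), (1, 2, 2, 0, 48), (3, 4, 0, 1, 3), (2, 1, 48, 48, 47), (3, 6, 48, 0, 1), (5, 2, 0, 0, 5), (1, 1, 0, 3, 48), (2, 5, 1, 48, 1), (1, 1, 43, 0, 47), (4, 1, 47, 0, 45), (3, 2, 1, 1, 5), (3, 4, 2, 48, 47)]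
  | 0, 1 => [(6, 4, 47, 48, 48), (3, 3, 48, 1, 4), (4, 2, 1, 0, 3), (6, 1, 47, 0, 48), (4, 4, 46, 48, 48), (3, 4, 48, 1, 47), (3, 1, 46, 1, 3), (5, 3, 46, 48, 1), (5, 4, 0, 1, 48), (4, 5, 1, 0, 1), (4, 1, 3, 2, 47), (1, 3, 5, 0, 2), (2, 2, 47, 1, 48), (3, 1, 45, 0, 48), (4, 4, 0, 2, 48), (2, 1, 0, 45, 48), (5, 1, 0, 48, 5), (1, 4, 47, 48, 47)]
  | 1, 0 => [(1, 3, 0, 2, 4), (3, 4, 0, 1, 47), (6, 1, 47, 45, 48), (5, 5, 1, 2, 1), (2, 5, 46, 1, 1), (1, 1, 7, 0, 3), (3, 1, 2, 0, 40), (4, 1, 6, 1, 47), (6, 6, 45, 0, 1), (4, 4, 48, 0, 5), (4, 5, 2, 48, 1), (2, 1, 2, 2, 48), (4, 2, 1, 47, 47), (5, 4, 47, 0, 5), (5, 4, 0, 48, 45), (5, 1, 48, 48, 48), (2, 2, 47, 0, 5), (3, 6, 48, 1, 1), (3, 2, 3, 2, 47), (6, 4, 0, 1, 45), (2, 5, 2, 1, 2), (6, 5, 0, 1, 4), (6, 1, 1, 46, 45), (6, 1, 3, 1, 48), (5, 6, 1, 1, 46)]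
  | 1, 1 => [(1, 1, 5, 0, 3), (3, 5, 45, 1, 1), (3, 2, 48, 1, 47), (3, 1, 44, 1, 48), (4, 6, 1, 48, 1), (2, 2, 46, 0, 6), (1, 2, 1, 1, 6), (6, 2, 48, 48, 6), (1, 2, 44, 1, 3), (6, 2, 0, 3, 45), (3, 1, 46, 46, 47), (3, 3, 1, 1, 46), (3, 1, 46, 1, 48), (1, 4, 1, 2, 47), (4, 1, 3, 48, 5), (2, 1, 6, 0, 3), (2, 4, 2, 1, 47), (1, 2, 2, 48, 45), (1, 5, 2, 47, 1), (4, 1, 0, 2, 47), (1, 5, 47, 1, 1)]

/-- reduced relations -/
private def RN : Fin 2 → Fin 2 → List TN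
  | 0, 0 => []
  | 0, 1 => [(1, 1, 0, 0, 1), (1, 2, 48, 1, 46), (1, 3, 48, 1, 47)]
  | 1, 0 => [(1, 1, 0, 0, 1), (6, 1, 1, 0, 1), (1, 4, 46, 1, 44), (6, 4, 1, 1, 2), (1, 5, 46, 1, 45), (6, 5, 2, 1, 3)]
  | 1, 1 => [(6, 1, 0, 0, 1), (6, 4, 46, 1, 44), (6, 5, 46, 1, 45)]

/-- reduced rows of `3 + 2 T_2 - T_2² - T_3²` -/
private def YN : Fin 2 → Fin 2 → List TN
  | 0, 0 => [(3, 1, 0, 0, 1), (2, 1, 0, 0, 2), (2, 2, 48, 0, 1), (2, 2, 0, 0, 1), (6, 1, 0, 0, 4), (6, 2, 48, 0, 2), (6, 2, 0, 0, 2), (6, 2, 47, 0, 2), (6, 4, 46, 0, 1), (6, 4, 48, 0, 1), (6, 2, 0, 0, 2), (6, 4, 47, 0, 1), (6, 4, 0, 0, 1), (1, 2, 47, 0, 2), (6, 2, 0, 0, 2), (1, 4, 46, 0, 1), (6, 4, 1, 0, 1), (1, 1, 48, 1, 46), (6, 1, 0, 1, 4), (6, 43, 3, 46, 9), (1, 1, 46, 1, 37), (1, 43, 46, 46, 37), (1, 3, 47, 3, 38), (1, 3, 48, 3, 45), (1, 3, 0, 3, 3), (1, 1, 48, 3, 37), (6, 1, 0, 0, 9), (6, 1, 0, 3, 9), (6, 3, 48, 0, 3), (6, 3, 0, 0,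 3), (6, 3, 1, 0, 3), (1, 1, 48, 4, 30), (6, 1, 0, 1, 9), (6, 1, 0, 4, 9), (6, 3, 48, 3, 45), (6, 3, 0, 3, 3), (6, 3, 1, 3, 10), (1, 45, 1, 1, 45), (6, 3, 46, 0, 3), (6, 45, 46, 1, 3), (6, 9, 45, 0, 1), (6, 9, 48, 0, 1), (6, 9, 2, 0, 1), (1, 3, 46, 1, 45), (6, 3, 0, 0, 3), (6, 3, 0, 1, 3), (6, 9, 46, 0, 1), (6, 9, 0, 0, 1), (6, 9, 3, 0, 1), (1, 10, 42, 1, 45), (6, 3, 3, 0, 3), (6, 10, 3, 1, 3), (6, 9, 47, 0, 1), (6, 9, 1, 0, 1), (6, 9, 4, 0, 1), (1, 43, 3, 46, 9), (6, 1, 46, 1, 37), (6, 43, 46, 46, 37), (1, 1, 47, 1, 44), (1, 45, 3, 48, 3), (6, 45, 48, 48, 45), (6, 46, 0, 0, 46), (1, 46, 46, 0, 46), (1, 1, 48, 2, 44), (6, 1, 0, 48, 9), (6, 1, 0, 2, 9), (1, 1, 1, 48, 2), (1, 3, 46, 0, 3), (6, 3, 0, 0, 3), (6, 4, 48, 48, 4), (1, 4, 3, 48, 46)]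
  | 0, 1 => [(5, 2, 48, 0, 1), (1, 2, 48, 0, 2), (1, 4, 46, 0, 1), (1, 4, 47, 0, 1), (6, 4, 46, 0, 1), (6, 48, 0, 1, 45), (6, 1, 48, 1, 46), (1, 43, 3, 46, 9), (1, 8, 46, 5, 37), (6, 1, 48, 3, 37), (6, 1, 0, 46, 9), (6, 1, 48, 4, 30), (6, 1, 0, 47, 9), (6, 45, 1, 1, 45), (6, 10, 46, 48, 3), (6, 3, 46, 1, 45), (6, 3, 0, 48, 3), (6, 10, 42, 1, 45), (6, 45, 3, 48, 3), (6, 43, 3, 46, 9), (6, 8, 46, 5, 37), (6, 1, 47, 1, 44), (6, 3, 47, 3, 38), (6, 1, 48, 2, 44), (6, 1, 0, 45, 9), (6, 1, 1, 48, 2), (6, 3, 48, 46, 10)]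
  | 1, 0 => [(2, 1, 0, 0, 2), (5, 1, 1, 0, 2), (2, 2, 48, 0, 1), (5, 2, 1, 0, 1), (2, 4, 47, 1, 46), (5, 4, 2, 1, 4), (6, 1, 0, 0, 4), (6, 2, 48, 0, 2), (6, 2, 0, 0, 2), (1, 1, 2, 0, 4), (1, 2, 0, 0, 2), (1, 2, 1, 0, 2), (6, 2, 47, 0, 2), (6, 4, 46, 0, 1), (6, 4, 48, 0, 1), (1, 2, 2, 0, 2), (1, 4, 48, 0, 1), (1, 4, 1, 0, 1), (6, 4, 45, 1, 43), (6, 8, 43, 2, 39), (6, 8, 47, 2, 46), (1, 4, 4, 1, 8), (1, 8, 47, 2, 46), (1, 8, 2, 2, 4), (1, 2, 47, 0, 2), (6, 2, 0, 0, 2), (1, 4, 46, 0, 1), (6, 4, 1, 0, 1), (1, 1, 48, 1, 46), (6, 1, 0, 1, 4), (1, 3, 45, 1, 41), (6, 3, 48, 1, 48), (1, 6, 44, 2, 38), (6, 6, 1, 2, 3), (1, 47, 0, 0, 47), (6, 47, 47, 0, 47), (1, 4, 45, 1, 43), (6, 4, 0, 1, 1), (1, 8, 43, 2, 39), (6, 8, 2, 2, 4), (1, 2, 47, 1, 44), (6, 2, 0, 1, 2), (6, 43, 3, 46, 9), (1, 1, 46, 1, 37), (1, 43, 46, 46, 37), (1, 3, 47, 3, 38), (1, 3, 48, 3, 45), (1, 3, 0, 3, 3), (1, 1, 48, 3, 37), (6, 1,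 0, 0, 9), (6, 1, 0, 3, 9), (6, 3, 48, 0, 3), (6, 3, 0, 0, 3), (6, 3, 1, 0, 3), (1, 1, 48, 4, 30), (6, 1, 0, 1, 9), (6, 1, 0, 4, 9), (6, 3, 48, 3, 45), (6, 3, 0, 3, 3), (6, 3, 1, 3, 10), (6, 8, 44, 3, 37), (1, 1, 3, 0, 9), (1, 8, 3, 3, 9), (1, 3, 0, 0, 3), (1, 3, 1, 0, 3), (1, 3, 2, 0, 3), (6, 31, 9, 44, 17), (1, 3, 40, 1, 31), (1, 31, 40, 44, 31), (1, 9, 43, 3, 36), (1, 9, 46, 3, 43), (1, 9, 0, 3, 1), (1, 3, 46, 2, 38), (6, 3, 0, 1, 3), (6, 3, 0, 2, 3), (6, 9, 46, 3, 43), (6, 9, 0, 3, 1), (6, 9, 3, 3, 8), (1, 46, 0, 0, 46), (6, 4, 46, 1, 46), (6, 46, 46, 0, 46), (6, 12, 44, 3, 41), (6, 12, 48, 3, 48), (6, 12, 3, 3, 6), (6, 25, 33, 7, 18), (1, 4, 9, 1, 18), (1, 25, 9, 7, 18), (1, 12, 48, 3, 48), (1, 12, 3, 3, 6), (1, 12, 7, 3, 13), (1, 43, 3, 46, 9), (6, 1, 46, 1, 37), (6, 43, 46, 46, 37), (1, 1, 47, 1, 44), (1, 45, 3, 48, 3), (6, 45, 48, 48, 45), (6, 46, 0, 0, 46), (1, 46, 46, 0, 46), (1, 1,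 48, 2, 44), (6, 1, 0, 48, 9), (6, 1, 0, 2, 9), (1, 1, 1, 48, 2), (1, 3, 46, 0, 3), (6, 3, 0, 0, 3), (6, 4, 48, 48, 4), (1, 4, 3, 48, 46), (1, 8, 44, 3, 37), (6, 1, 3, 0, 9), (6, 8, 3, 3, 9), (1, 1, 4, 0, 9), (1, 10, 40, 3, 31), (6, 10, 1, 3, 3), (6, 11, 47, 3, 46), (1, 11, 9, 3, 18), (1, 45, 1, 1, 45), (6, 3, 46, 0, 3), (6, 45, 46, 1, 3), (1, 3, 0, 0, 3), (1, 2, 46, 1, 43), (6, 2, 48, 1, 1), (6, 5, 47, 1, 48), (1, 5, 3, 1, 6)]
  | 1, 1 => [(3, 1, 0, 0, 1), (5, 2, 48, 0, 1), (5, 3, 47, 1, 45), (5, 4, 47, 1, 46), (1, 2, 48, 0, 2), (6, 2, 0, 0, 2), (1, 4, 46, 0, 1), (6, 4, 48, 0, 1), (1, 8, 43, 2, 39), (6, 8, 47, 2, 46), (6, 4, 46, 0, 1), (6, 48, 0, 1, 45), (6, 1, 48, 1, 46), (6, 6, 44, 2, 38), (6, 44, 2, 48, 2), (6, 47, 0, 0, 47), (6, 8, 43, 2, 39), (6, 47, 0, 0, 47), (6, 2, 47, 1, 44), (1, 43, 3, 46, 9), (1, 8, 46, 5, 37), (6, 1, 48, 3, 37), (6, 1, 0, 46, 9), (6, 1, 48, 4, 30), (6, 1, 0, 47,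 9), (1, 8, 44, 3, 37), (1, 43, 3, 46, 9), (1, 31, 9, 44, 17), (1, 24, 40, 7, 31), (6, 3, 46, 2, 38), (6, 3, 0, 0, 3), (6, 46, 0, 0, 46), (6, 11, 46, 2, 46), (1, 25, 33, 7, 18), (1, 32, 9, 44, 18), (6, 43, 3, 46, 9), (6, 8, 46, 5, 37), (6, 1, 47, 1, 44), (6, 3, 47, 3, 38), (6, 1, 48, 2, 44), (6, 1, 0, 45, 9), (6, 1, 1, 48, 2), (6, 3, 48, 46, 10), (6, 8, 44, 3, 37), (6, 43, 3, 46, 9), (6, 1, 4, 0, 9), (6, 3, 0, 0, 3), (6, 45, 1, 1, 45), (6, 10, 46, 48, 3), (6, 3, 0, 0, 3), (6, 9, 45, 0, 1)]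

/-- reduced rows of `T_2² + 4` -/
private def ZN : Fin 2 → Fin 2 → List TN
  | 0, 0 => [(1, 1, 0, 0, 4), (1, 2, 48, 0, 2), (1, 2, 0, 0, 2), (1, 2, 47, 0, 2), (1, 4, 46, 0, 1), (1, 4, 48, 0, 1), (1, 2, 0, 0, 2), (1, 4, 47, 0, 1), (1, 4, 0, 0, 1), (6, 2, 47, 0, 2), (1, 2, 0, 0, 2), (6, 4, 46, 0, 1), (1, 4, 1, 0, 1), (6, 1, 48, 1, 46), (1, 1, 0, 1, 4), (4, 1, 0, 0, 1)]
  | 0, 1 => [(6, 2, 48, 0, 2), (6, 4, 46, 0, 1), (6, 4, 47, 0, 1), (1, 4, 46, 0, 1), (1, 48, 0, 1, 45), (1, 1, 48, 1, 46)]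
  | 1, 0 => [(1, 1, 0, 0, 4), (1, 2, 48, 0, 2), (1, 2, 0, 0, 2), (6, 1, 2, 0, 4), (6, 2, 0, 0, 2), (6, 2, 1, 0, 2), (1, 2, 47, 0, 2), (1, 4, 46, 0, 1), (1, 4, 48, 0, 1), (6, 2, 2, 0, 2), (6, 4, 48, 0, 1), (6, 4, 1, 0, 1), (1, 4, 45, 1, 43), (1, 8, 43, 2, 39), (1, 8, 47, 2, 46), (6, 4, 4, 1, 8), (6, 8, 47, 2, 46), (6, 8, 2, 2, 4), (6, 2, 47, 0, 2), (1, 2, 0, 0, 2), (6, 4, 46, 0, 1), (1, 4, 1, 0, 1), (6, 1, 48, 1, 46), (1, 1, 0, 1, 4), (6, 3, 45, 1, 41), (1, 3, 48, 1, 48), (6, 6, 44, 2, 38), (1, 6, 1, 2, 3), (6, 47, 0, 0, 47), (1, 47, 47, 0, 47), (6, 4, 45, 1, 43), (1, 4, 0, 1, 1), (6, 8, 43, 2, 39), (1, 8, 2, 2, 4), (6, 2, 47, 1, 44), (1, 2, 0, 1, 2)]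
  | 1, 1 => [(6, 2, 48, 0, 2), (1, 2, 0, 0, 2), (6, 4, 46, 0, 1), (1, 4, 48, 0, 1), (6, 8, 43, 2, 39), (1, 8, 47, 2, 46), (1, 4, 46, 0, 1), (1, 48, 0, 1, 45), (1, 1, 48, 1, 46), (1, 6, 44, 2, 38), (1, 44, 2, 48, 2), (1, 47, 0, 0, 47), (1, 8, 43, 2, 39), (1, 47, 0, 0, 47), (1, 2, 47, 1, 44), (4, 1, 0, 0, 1)]

/-- the total sum for the entry `(i, f)` -/
private noncomputable def tot (OC a k j : ℕ) (i f : Fin 2) : ℕ :=
  W OC a k j (T3N i 0) (YN 0 f) + W OC a k j (T3N i 1) (YN 1 f) +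
    (W OC a k j (T5N i 0) (ZN 0 f) + W OC a k j (T5N i 1) (ZN 1 f)) +
    6 * W OC a k j (M8N i 0) (RN 0 f) + 6 * W OC a k j (M8N i 1) (RN 1 f)

/-! ### Correctness of the reduced lists -/

private def YY : Fin 2 → Fin 2 → List Tm :=
  adL (idL 3) (adL (smL 2 T2L) (adL (smL (-1) (mmL T2L T2L)) (smL (-1) (mmL T3L T3L))))

private def ZZ : Fin 2 → Fin 2 → List Tm := adL (mmL T2L T2L) (idL 4)

private theorem redT3 : ∀ i f, (T3L i f).map red = T3N i f := by decide +kernel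

private theorem redT5 : ∀ i f, (T5L i f).map red = T5N i f := by decide +kernel

private theorem redM8 : ∀ i f, (M8 i f).map red = M8N i f := by decide +kernel

private theorem redR : ∀ i f, (relL i f).map red = RN i f := by decide +kernel

private theorem redY : ∀ i f, (YY i f).map red = YN i f := by decide +kernel

private theorem redZ : ∀ i f, (ZZ i f).map red = ZN i f := by decide +kernel

private theorem B8_eq (i f : Fin 2) : B8 i f =
    ((mulL (T3L i 0) (YY 0 f) ++ mulL (T3L i 1) (YY 1 f)) ++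
      (mulL (T5L i 0) (ZZ 0 f) ++ mulL (T5L i 1) (ZZ 1 f))) ++
    sclL (-1) (mulL (M8 i 0) (relL 0 f)) ++ sclL (-1) (mulL (M8 i 1) (relL 1 f)) := rfl

/-! ### Tables -/

private theorem tabI : ∀ A : ℕ, A < 49 → (TI >>> (6 * A)) % 64 = A ^ 41 % 49 := by decide +kernel

private theorem tab_zero : ∀ x : ℕ, x < 49 → ch x 0 = 1 := by decide +kernel

private theorem tab_zero' : ∀ i : ℕ, i < 8 → ch 0 (i + 1) = 0 := by decide +kernel

private theorem tab_succ : ∀ x : ℕ, x < 48 → ∀ i : ℕ, i < 8 →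
    ch (x + 1) (i + 1) = (ch x i + ch x (i + 1)) % 7 := by decide +kernel

private theorem tabC : ∀ x : ℕ, x < 49 → ∀ i : ℕ, i < 9 → ch x i = x.choose i % 7 := by
  intro x
  induction x with
  | zero =>
    intro _ i hi
    cases i with
    | zero => rw [tab_zero 0 (by norm_num)]; rfl
    | succ i => rw [tab_zero' i (by omega), Nat.choose_zero_succ]
  | succ x ih =>
    intro hx i hi
    cases i with
    | zero => rw [tab_zero _ hx, Nat.choose_zero_right]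
    | succ i =>
      rw [tab_succ x (by omega) i (by omega), ih (by omega) i (by omega),
        ih (by omega) (i + 1) (by omega), Nat.choose_succ_succ, ← Nat.add_mod]

/-- the index of the root of unity, as a function of the residue -/
private def wR (r : ℕ) : Fin 6 :=
  if r = 1 then 0 else if r = 5 then 1 else if r = 4 then 2 else if r = 6 then 3
  else if r = 2 then 4 else 5

private theorem tabO : ∀ r : ℕ, r < 7 → (((TO >>> (6 * r)) % 64 : ℕ) : ℤ) = oi6 (wR r) := by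
  decide +kernel

private theorem tab0 : ∀ r : ℕ, r < 7 → (((T0 >>> (3 * r)) % 8 : ℕ) : ZMod 7) =
    (((om6 (wR r)) ^ 0 : ℤ) : ZMod 7) := by
  decide +kernel

private theorem tab2 : ∀ r : ℕ, r < 7 → (((T2 >>> (3 * r)) % 8 : ℕ) : ZMod 7) =
    (((om6 (wR r)) ^ 2 : ℤ) : ZMod 7) := by
  decide +kernel

/-! ### Residues -/

private theorem cN (x : ℤ) : (((x % 49).toNat : ℕ) : ZMod 49) = (x : ZMod 49) := by
  have h1 : (((x % 49).toNat : ℕ) : ZMod 49) = ((((x % 49).toNat : ℕ) : ℤ) : ZMod 49) := by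
    push_cast
    rfl
  rw [h1, Int.toNat_of_nonneg (Int.emod_nonneg _ (by norm_num)), ZMod.intCast_eq_intCast_iff']
  push_cast
  exact Int.emod_emod_of_dvd x (dvd_refl 49)

private theorem cN7 (x : ℤ) : (((x % 7).toNat : ℕ) : ZMod 7) = (x : ZMod 7) := by
  have h1 : (((x % 7).toNat : ℕ) : ZMod 7) = ((((x % 7).toNat : ℕ) : ℤ) : ZMod 7) := by
    push_cast
    rfl
  rw [h1, Int.toNat_of_nonneg (Int.emod_nonneg _ (by norm_num)), ZMod.intCast_eq_intCast_iff']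
  push_cast
  exact Int.emod_emod_of_dvd x (dvd_refl 7)

private theorem cM (x : ℕ) : ((x % 49 : ℕ) : ZMod 49) = (x : ZMod 49) := ZMod.natCast_mod x 49

private theorem cM7 (x : ℕ) : ((x % 7 : ℕ) : ZMod 7) = (x : ZMod 7) := ZMod.natCast_mod x 7

private theorem cZ (x : ℤ) : ((x % 49 : ℤ) : ZMod 49) = (x : ZMod 49) := by
  rw [ZMod.intCast_eq_intCast_iff']
  push_cast
  exact Int.emod_emod_of_dvd x (dvd_refl 49)

/-- a natural number less than `49` is determined by its class -/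
private theorem eqN (x : ℕ) (y : ℤ) (hx : x < 49) (h : (x : ZMod 49) = (y : ZMod 49)) :
    x = (y % 49).toNat := by
  have h1 : (x : ZMod 49) = (((y % 49).toNat : ℕ) : ZMod 49) := by rw [h, cN]
  have h2 := (ZMod.natCast_eq_natCast_iff' x _ 49).1 h1
  have h3 : (y % 49).toNat < 49 := by omega
  rwa [Nat.mod_eq_of_lt hx, Nat.mod_eq_of_lt h3] at h2

private theorem wE_eq (t : Tm) (r : ℕ) (hr : r < 7) (h : lE t % 7 = (r : ℤ)) : wE t = wR r := by
  unfold wE wR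
  rw [h]
  interval_cases r <;> simp

/-- the value of a term -/
private def tv (c a k j : ℕ) (t : Tm) : ZMod 7 :=
  (((om6 (wE t)) ^ c * (t.1 * ((gE t).choose a * (mE t).choose k * (bE t).choose j : ℕ)) : ℤ) : ZMod 7)

private theorem val_spec (OC c a k j : ℕ) (ha : a < 9) (hk : k < 9) (hj : j < 9)
    (hOC : ∀ r : ℕ, r < 7 → (((OC >>> (3 * r)) % 8 : ℕ) : ZMod 7) = (((om6 (wR r)) ^ c : ℤ) : ZMod 7))
    (t u : Tm) : ((valN OC a k j (red t) (red u) : ℕ) : ZMod 7) = tv c a k j (mulT t u) := by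
  unfold valN
  simp only [frc_eq]
  set A : ℕ := ((red t).2.1 * (red u).2.1 + 7 * ((red t).2.2.1 * (red u).2.2.2.1)) % 49 with hA
  set B : ℕ := ((red t).2.1 * (red u).2.2.1 + (red t).2.2.1 * (red u).2.2.2.2) % 49 with hB
  set C : ℕ := ((red t).2.2.2.1 * (red u).2.1 + (red t).2.2.2.2 * (red u).2.2.2.1) % 49 with hC
  set D : ℕ := (7 * ((red t).2.2.2.1 * (red u).2.2.1) + (red t).2.2.2.2 * (red u).2.2.2.2) % 49 with hD
  have cA : (A : ZMod 49) = ((mulT t u).2.1 : ZMod 49) := by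
    rw [hA, cM]
    unfold red mulT
    push_cast [cN]
    ring
  have cB : (B : ZMod 49) = ((mulT t u).2.2.1 : ZMod 49) := by
    rw [hB, cM]
    unfold red mulT
    push_cast [cN]
    ring
  have cC' : (C : ZMod 49) = ((mulT t u).2.2.2.1 : ZMod 49) := by
    rw [hC, cM]
    unfold red mulT
    push_cast [cN]
    ring
  have cD : (D : ZMod 49) = ((mulT t u).2.2.2.2 : ZMod 49) := by
    rw [hD, cM]
    unfold red mulT
    push_cast [cN]
    ring
  have hA49 : A < 49 := Nat.mod_lt _ (by norm_num)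
  clear_value A B C D
  have cK : (((red t).1 * (red u).1 : ℕ) : ZMod 7) = ((mulT t u).1 : ZMod 7) := by
    unfold red mulT
    push_cast [cN7]
    ring
  generalize mulT t u = v at *
  -- the inverse
  have hI := tabI A hA49
  have hIc : (((TI >>> (6 * A)) % 64 : ℕ) : ZMod 49) = (v.2.1 : ZMod 49) ^ 41 := by
    rw [hI, cM]
    push_cast
    rw [cA]
  have haI : ((aI v : ℤ) : ZMod 49) = (v.2.1 : ZMod 49) ^ 41 := by
    unfold aI
    rw [cZ]
    push_cast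
    ring
  generalize (TI >>> (6 * A)) % 64 = I at *
  -- the determinant
  have h42 : (42 : ZMod 49) = -7 := by decide
  have hl49 : ((A * D + 42 * (B * C)) * (I * I)) % 49 < 49 := Nat.mod_lt _ (by norm_num)
  have hl : (((A * D + 42 * (B * C)) * (I * I)) % 49 : ℕ) =
      (((v.2.1 * v.2.2.2.2 - 7 * v.2.2.1 * v.2.2.2.1) * aI v ^ 2) % 49).toNat := by
    apply eqN _ _ hl49
    rw [cM]
    push_cast
    rw [cA, cB, cC', cD, hIc, haI, h42]
    ring
  have hlE : ((((A * D + 42 * (B * C)) * (I * I)) % 49 : ℕ) : ℤ) = lE v := by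
    rw [hl, Int.toNat_of_nonneg (Int.emod_nonneg _ (by norm_num))]
    rfl
  generalize ((A * D + 42 * (B * C)) * (I * I)) % 49 = l at *
  have hr7 : l % 7 < 7 := Nat.mod_lt _ (by norm_num)
  have hrE : lE v % 7 = ((l % 7 : ℕ) : ℤ) := by
    rw [← hlE]
    push_cast
    rfl
  have hw : wE v = wR (l % 7) := wE_eq v _ hr7 hrE
  generalize l % 7 = r at *
  have ho := tabO r hr7
  have hO := hOC r hr7
  rw [← hw] at ho hO
  generalize (TO >>> (6 * r)) % 64 = o at *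
  generalize (OC >>> (3 * r)) % 8 = oc at *
  have hg49 : (C * I * o) % 49 < 49 := Nat.mod_lt _ (by norm_num)
  have hg : (C * I * o) % 49 = gE v := by
    unfold gE
    apply eqN _ _ hg49
    rw [cM]
    push_cast
    rw [cC', hIc, haI, ← ho]
    push_cast
    rfl
  have hb49 : (B * I) % 49 < 49 := Nat.mod_lt _ (by norm_num)
  have hb : (B * I) % 49 = bE v := by
    unfold bE
    apply eqN _ _ hb49
    rw [cM]
    push_cast
    rw [cB, hIc, haI]
  have hm49 : (l * o % 49) / 7 < 49 := by omega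
  have hm : (l * o % 49) / 7 = mE v := by
    unfold mE
    rw [← hlE, ← ho]
    have e : (((l : ℤ) * (o : ℤ)) % 49 / 7) = (((l * o % 49) / 7 : ℕ) : ℤ) := by
      push_cast
      rfl
    rw [e, Int.toNat_natCast]
  rw [cM7]
  rw [tabC _ hg49 a ha, tabC _ hm49 k hk, tabC _ hb49 j hj, hg, hb, hm]
  unfold tv
  push_cast at hO cK ⊢
  rw [cM7, cM7, cM7, cK, hO]
  ring

/-! ### Sums -/

private theorem cC_nil (c a k j : ℕ) : cC [] c a k j = 0 := by
  simp [cC, cS]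

private theorem cC_cons (c a k j : ℕ) (t : Tm) (L : List Tm) :
    cC (t :: L) c a k j = (om6 (wE t)) ^ c * (t.1 * ((gE t).choose a * (mE t).choose k * (bE t).choose j : ℕ)) +
      cC L c a k j := by
  unfold cC
  have h1 : ∀ w : Fin 6, cS (t :: L) w a k j = (if wE t = w then
      (t.1 : ℤ) * (((gE t).choose a * (mE t).choose k * (bE t).choose j : ℕ) : ℤ) else 0) + cS L w a k j := by
    intro w
    simp only [cS, List.map_cons, List.sum_cons]
  simp only [h1, mul_add, Finset.sum_add_distrib]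
  congr 1
  simp only [mul_ite, mul_zero]
  rw [Finset.sum_ite_eq]
  simp

private theorem cC_append (c a k j : ℕ) (L M : List Tm) :
    cC (L ++ M) c a k j = cC L c a k j + cC M c a k j := by
  induction L with
  | nil => rw [List.nil_append, cC_nil, zero_add]
  | cons t L ih => rw [List.cons_append, cC_cons, cC_cons, ih, add_assoc]

private theorem cC_scl (c a k j : ℕ) (n : ℤ) (L : List Tm) :
    cC (sclL n L) c a k j = n * cC L c a k j := by
  induction L with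
  | nil => simp [sclL, cC_nil]
  | cons t L ih =>
    have e : sclL n (t :: L) = (n * t.1, t.2) :: sclL n L := rfl
    rw [e, cC_cons, cC_cons, ih]
    have e1 : wE (n * t.1, t.2) = wE t := rfl
    have e2 : gE (n * t.1, t.2) = gE t := rfl
    have e3 : mE (n * t.1, t.2) = mE t := rfl
    have e4 : bE (n * t.1, t.2) = bE t := rfl
    rw [e1, e2, e3, e4]
    ring

private theorem sum_inner (OC c a k j : ℕ) (ha : a < 9) (hk : k < 9) (hj : j < 9)
    (hOC : ∀ r : ℕ, r < 7 → (((OC >>> (3 * r)) % 8 : ℕ) : ZMod 7) = (((om6 (wR r)) ^ c : ℤ) : ZMod 7))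
    (t : Tm) (M : List Tm) :
    ((sumN (fun v => valN OC a k j (red t) v) (M.map red) : ℕ) : ZMod 7) =
      ((cC (M.map fun u => mulT t u) c a k j : ℤ) : ZMod 7) := by
  induction M with
  | nil => rw [List.map_nil, List.map_nil, cC_nil]; rfl
  | cons u M ih =>
    rw [List.map_cons, List.map_cons, cC_cons, Int.cast_add, ← ih]
    have e : sumN (fun v => valN OC a k j (red t) v) (red u :: M.map red) =
        valN OC a k j (red t) (red u) + sumN (fun v => valN OC a k j (red t) v) (M.map red) := rfl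
    rw [e, Nat.cast_add, val_spec OC c a k j ha hk hj hOC]
    rfl

private theorem W_spec (OC c a k j : ℕ) (ha : a < 9) (hk : k < 9) (hj : j < 9)
    (hOC : ∀ r : ℕ, r < 7 → (((OC >>> (3 * r)) % 8 : ℕ) : ZMod 7) = (((om6 (wR r)) ^ c : ℤ) : ZMod 7))
    (L M : List Tm) :
    ((W OC a k j (L.map red) (M.map red) : ℕ) : ZMod 7) =
      ((cC (mulL L M) c a k j : ℤ) : ZMod 7) := by
  induction L with
  | nil =>
    have e : mulL [] M = [] := rfl
    rw [e, cC_nil]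
    rfl
  | cons t L ih =>
    have e : mulL (t :: L) M = (M.map fun u => mulT t u) ++ mulL L M := rfl
    rw [e, cC_append, Int.cast_add, ← ih, ← sum_inner OC c a k j ha hk hj hOC]
    have e' : W OC a k j ((t :: L).map red) (M.map red) =
        sumN (fun v => valN OC a k j (red t) v) (M.map red) + W OC a k j (L.map red) (M.map red) := rfl
    rw [e', Nat.cast_add]

private theorem tot_spec (OC c a k j : ℕ) (ha : a < 9) (hk : k < 9) (hj : j < 9)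
    (hOC : ∀ r : ℕ, r < 7 → (((OC >>> (3 * r)) % 8 : ℕ) : ZMod 7) = (((om6 (wR r)) ^ c : ℤ) : ZMod 7))
    (i f : Fin 2) (x : ℕ) (h : tot OC a k j i f % 7 = x) :
    (7 : ℤ) ∣ cC (B8 i f) c a k j - (x : ℤ) := by
  have h1 : ((tot OC a k j i f : ℕ) : ZMod 7) = ((cC (B8 i f) c a k j : ℤ) : ZMod 7) := by
    rw [B8_eq, cC_append, cC_append, cC_append, cC_append, cC_append, cC_scl, cC_scl]
    unfold tot
    rw [← redT3, ← redT3, ← redT5, ← redT5, ← redM8, ← redM8, ← redR, ← redR, ← redY, ← redY,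
      ← redZ, ← redZ]
    push_cast
    rw [W_spec OC c a k j ha hk hj hOC, W_spec OC c a k j ha hk hj hOC,
      W_spec OC c a k j ha hk hj hOC, W_spec OC c a k j ha hk hj hOC,
      W_spec OC c a k j ha hk hj hOC, W_spec OC c a k j ha hk hj hOC]
    have h6 : (6 : ZMod 7) = -1 := by decide
    rw [h6]
  have h2 : (((cC (B8 i f) c a k j - (x : ℤ) : ℤ)) : ZMod 7) = 0 := by
    rw [Int.cast_sub, ← h1, ← h, Int.cast_natCast, cM7, sub_self]
  have h3 := (ZMod.intCast_zmod_eq_zero_iff_dvd _ 7).1 h2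
  exact_mod_cast h3

/-! ### The certificate -/

private theorem k00_008 : tot T0 0 0 8 0 0 % 7 = 0 := by decide +kernel

private theorem k00_107 : tot T0 1 0 7 0 0 % 7 = 5 := by decide +kernel

private theorem k00_206 : tot T0 2 0 6 0 0 % 7 = 0 := by decide +kernel

private theorem k00_305 : tot T0 3 0 5 0 0 % 7 = 0 := by decide +kernel

private theorem k00_404 : tot T0 4 0 4 0 0 % 7 = 5 := by decide +kernel

private theorem k00_503 : tot T0 5 0 3 0 0 % 7 = 0 := by decide +kernel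

private theorem k00_602 : tot T0 6 0 2 0 0 % 7 = 0 := by decide +kernel

private theorem k00_701 : tot T0 7 0 1 0 0 % 7 = 5 := by decide +kernel

private theorem k00_800 : tot T0 8 0 0 0 0 % 7 = 0 := by decide +kernel

private theorem k00_012 : tot T0 0 1 2 0 0 % 7 = 0 := by decide +kernel

private theorem k00_111 : tot T0 1 1 1 0 0 % 7 = 0 := by decide +kernel

private theorem k00_210 : tot T0 2 1 0 0 0 % 7 = 0 := by decide +kernel

private theorem k01_008 : tot T0 0 0 8 0 1 % 7 = 0 := by decide +kernel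

private theorem k01_107 : tot T0 1 0 7 0 1 % 7 = 0 := by decide +kernel

private theorem k01_206 : tot T0 2 0 6 0 1 % 7 = 0 := by decide +kernel

private theorem k01_305 : tot T0 3 0 5 0 1 % 7 = 0 := by decide +kernel

private theorem k01_404 : tot T0 4 0 4 0 1 % 7 = 0 := by decide +kernel

private theorem k01_503 : tot T0 5 0 3 0 1 % 7 = 0 := by decide +kernel

private theorem k01_602 : tot T0 6 0 2 0 1 % 7 = 0 := by decide +kernel

private theorem k01_701 : tot T0 7 0 1 0 1 % 7 = 0 := by decide +kernel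

private theorem k01_800 : tot T0 8 0 0 0 1 % 7 = 0 := by decide +kernel

private theorem k01_012 : tot T0 0 1 2 0 1 % 7 = 0 := by decide +kernel

private theorem k01_111 : tot T0 1 1 1 0 1 % 7 = 0 := by decide +kernel

private theorem k01_210 : tot T0 2 1 0 0 1 % 7 = 0 := by decide +kernel

private theorem k10_008 : tot T2 0 0 8 1 0 % 7 = 0 := by decide +kernel

private theorem k10_107 : tot T2 1 0 7 1 0 % 7 = 0 := by decide +kernel

private theorem k10_206 : tot T2 2 0 6 1 0 % 7 = 0 := by decide +kernel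

private theorem k10_305 : tot T2 3 0 5 1 0 % 7 = 0 := by decide +kernel

private theorem k10_404 : tot T2 4 0 4 1 0 % 7 = 0 := by decide +kernel

private theorem k10_503 : tot T2 5 0 3 1 0 % 7 = 0 := by decide +kernel

private theorem k10_602 : tot T2 6 0 2 1 0 % 7 = 0 := by decide +kernel

private theorem k10_701 : tot T2 7 0 1 1 0 % 7 = 0 := by decide +kernel

private theorem k10_800 : tot T2 8 0 0 1 0 % 7 = 0 := by decide +kernel

private theorem k10_012 : tot T2 0 1 2 1 0 % 7 = 0 := by decide +kernel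

private theorem k10_111 : tot T2 1 1 1 1 0 % 7 = 0 := by decide +kernel

private theorem k10_210 : tot T2 2 1 0 1 0 % 7 = 0 := by decide +kernel

private theorem k11_008 : tot T2 0 0 8 1 1 % 7 = 0 := by decide +kernel

private theorem k11_107 : tot T2 1 0 7 1 1 % 7 = 2 := by decide +kernel

private theorem k11_206 : tot T2 2 0 6 1 1 % 7 = 0 := by decide +kernel

private theorem k11_305 : tot T2 3 0 5 1 1 % 7 = 0 := by decide +kernel

private theorem k11_404 : tot T2 4 0 4 1 1 % 7 = 2 := by decide +kernel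

private theorem k11_503 : tot T2 5 0 3 1 1 % 7 = 0 := by decide +kernel

private theorem k11_602 : tot T2 6 0 2 1 1 % 7 = 0 := by decide +kernel

private theorem k11_701 : tot T2 7 0 1 1 1 % 7 = 2 := by decide +kernel

private theorem k11_800 : tot T2 8 0 0 1 1 % 7 = 0 := by decide +kernel

private theorem k11_012 : tot T2 0 1 2 1 1 % 7 = 0 := by decide +kernel

private theorem k11_111 : tot T2 1 1 1 1 1 % 7 = 0 := by decide +kernel

private theorem k11_210 : tot T2 2 1 0 1 1 % 7 = 0 := by decide +kernel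

private theorem fin4 (A B C D : ℤ) (x y : ℕ) (X Y : ℤ) (h1 : (7 : ℤ) ∣ A - (x : ℤ))
    (h2 : (7 : ℤ) ∣ B - ((0 : ℕ) : ℤ)) (h3 : (7 : ℤ) ∣ C - ((0 : ℕ) : ℤ)) (h4 : (7 : ℤ) ∣ D - (y : ℤ))
    (hX : X = x) (hY : Y = y) : (7 : ℤ) ∣ A - X ∧ (7 : ℤ) ∣ B ∧ (7 : ℤ) ∣ C ∧ (7 : ℤ) ∣ D - Y := by
  subst hX hY
  refine ⟨h1, ?_, ?_, h4⟩
  · simpa using h2
  · simpa using h3

private theorem M9_list : ∀ t ∈ M9, t.1 + 6 * t.2.1 + t.2.2 = 8 →
    t ∈ ([(0, 0, 8), (1, 0, 7), (2, 0, 6), (3, 0, 5), (4, 0, 4), (5, 0, 3), (6, 0, 2), (7, 0, 1), (8, 0, 0), (0, 1, 2), (1, 1, 1), (2, 1, 0)] : List (ℕ × ℕ × ℕ)) := by decide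

theorem hCert4 : S7Cert4 := by
  intro t ht h8
  have hm := M9_list t ht h8
  simp only [List.mem_cons, List.not_mem_nil, or_false] at hm
  rcases hm with rfl | rfl | rfl | rfl | rfl | rfl | rfl | rfl | rfl | rfl | rfl | rfl
  · have q1 := tot_spec T0 0 0 0 8 (by norm_num) (by norm_num) (by norm_num) tab0 0 0 _ k00_008
    have q2 := tot_spec T0 0 0 0 8 (by norm_num) (by norm_num) (by norm_num) tab0 0 1 _ k01_008
    have q3 := tot_spec T2 2 0 0 8 (by norm_num) (by norm_num) (by norm_num) tab2 1 0 _ k10_008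
    have q4 := tot_spec T2 2 0 0 8 (by norm_num) (by norm_num) (by norm_num) tab2 1 1 _ k11_008
    exact fin4 _ _ _ _ _ _ _ _ q1 q2 q3 q4 (by decide) (by decide)
  · have q1 := tot_spec T0 0 1 0 7 (by norm_num) (by norm_num) (by norm_num) tab0 0 0 _ k00_107
    have q2 := tot_spec T0 0 1 0 7 (by norm_num) (by norm_num) (by norm_num) tab0 0 1 _ k01_107
    have q3 := tot_spec T2 2 1 0 7 (by norm_num) (by norm_num) (by norm_num) tab2 1 0 _ k10_107
    have q4 := tot_spec T2 2 1 0 7 (by norm_num) (by norm_num) (by norm_num) tab2 1 1 _ k11_107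
    exact fin4 _ _ _ _ _ _ _ _ q1 q2 q3 q4 (by decide) (by decide)
  · have q1 := tot_spec T0 0 2 0 6 (by norm_num) (by norm_num) (by norm_num) tab0 0 0 _ k00_206
    have q2 := tot_spec T0 0 2 0 6 (by norm_num) (by norm_num) (by norm_num) tab0 0 1 _ k01_206
    have q3 := tot_spec T2 2 2 0 6 (by norm_num) (by norm_num) (by norm_num) tab2 1 0 _ k10_206
    have q4 := tot_spec T2 2 2 0 6 (by norm_num) (by norm_num) (by norm_num) tab2 1 1 _ k11_206
    exact fin4 _ _ _ _ _ _ _ _ q1 q2 q3 q4 (by decide) (by decide)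
  · have q1 := tot_spec T0 0 3 0 5 (by norm_num) (by norm_num) (by norm_num) tab0 0 0 _ k00_305
    have q2 := tot_spec T0 0 3 0 5 (by norm_num) (by norm_num) (by norm_num) tab0 0 1 _ k01_305
    have q3 := tot_spec T2 2 3 0 5 (by norm_num) (by norm_num) (by norm_num) tab2 1 0 _ k10_305
    have q4 := tot_spec T2 2 3 0 5 (by norm_num) (by norm_num) (by norm_num) tab2 1 1 _ k11_305
    exact fin4 _ _ _ _ _ _ _ _ q1 q2 q3 q4 (by decide) (by decide)
  · have q1 := tot_spec T0 0 4 0 4 (by norm_num) (by norm_num) (by norm_num) tab0 0 0 _ k00_404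
    have q2 := tot_spec T0 0 4 0 4 (by norm_num) (by norm_num) (by norm_num) tab0 0 1 _ k01_404
    have q3 := tot_spec T2 2 4 0 4 (by norm_num) (by norm_num) (by norm_num) tab2 1 0 _ k10_404
    have q4 := tot_spec T2 2 4 0 4 (by norm_num) (by norm_num) (by norm_num) tab2 1 1 _ k11_404
    exact fin4 _ _ _ _ _ _ _ _ q1 q2 q3 q4 (by decide) (by decide)
  · have q1 := tot_spec T0 0 5 0 3 (by norm_num) (by norm_num) (by norm_num) tab0 0 0 _ k00_503
    have q2 := tot_spec T0 0 5 0 3 (by norm_num) (by norm_num) (by norm_num) tab0 0 1 _ k01_503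
    have q3 := tot_spec T2 2 5 0 3 (by norm_num) (by norm_num) (by norm_num) tab2 1 0 _ k10_503
    have q4 := tot_spec T2 2 5 0 3 (by norm_num) (by norm_num) (by norm_num) tab2 1 1 _ k11_503
    exact fin4 _ _ _ _ _ _ _ _ q1 q2 q3 q4 (by decide) (by decide)
  · have q1 := tot_spec T0 0 6 0 2 (by norm_num) (by norm_num) (by norm_num) tab0 0 0 _ k00_602
    have q2 := tot_spec T0 0 6 0 2 (by norm_num) (by norm_num) (by norm_num) tab0 0 1 _ k01_602
    have q3 := tot_spec T2 2 6 0 2 (by norm_num) (by norm_num) (by norm_num) tab2 1 0 _ k10_602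
    have q4 := tot_spec T2 2 6 0 2 (by norm_num) (by norm_num) (by norm_num) tab2 1 1 _ k11_602
    exact fin4 _ _ _ _ _ _ _ _ q1 q2 q3 q4 (by decide) (by decide)
  · have q1 := tot_spec T0 0 7 0 1 (by norm_num) (by norm_num) (by norm_num) tab0 0 0 _ k00_701
    have q2 := tot_spec T0 0 7 0 1 (by norm_num) (by norm_num) (by norm_num) tab0 0 1 _ k01_701
    have q3 := tot_spec T2 2 7 0 1 (by norm_num) (by norm_num) (by norm_num) tab2 1 0 _ k10_701
    have q4 := tot_spec T2 2 7 0 1 (by norm_num) (by norm_num) (by norm_num) tab2 1 1 _ k11_701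
    exact fin4 _ _ _ _ _ _ _ _ q1 q2 q3 q4 (by decide) (by decide)
  · have q1 := tot_spec T0 0 8 0 0 (by norm_num) (by norm_num) (by norm_num) tab0 0 0 _ k00_800
    have q2 := tot_spec T0 0 8 0 0 (by norm_num) (by norm_num) (by norm_num) tab0 0 1 _ k01_800
    have q3 := tot_spec T2 2 8 0 0 (by norm_num) (by norm_num) (by norm_num) tab2 1 0 _ k10_800
    have q4 := tot_spec T2 2 8 0 0 (by norm_num) (by norm_num) (by norm_num) tab2 1 1 _ k11_800
    exact fin4 _ _ _ _ _ _ _ _ q1 q2 q3 q4 (by decide) (by decide)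
  · have q1 := tot_spec T0 0 0 1 2 (by norm_num) (by norm_num) (by norm_num) tab0 0 0 _ k00_012
    have q2 := tot_spec T0 0 0 1 2 (by norm_num) (by norm_num) (by norm_num) tab0 0 1 _ k01_012
    have q3 := tot_spec T2 2 0 1 2 (by norm_num) (by norm_num) (by norm_num) tab2 1 0 _ k10_012
    have q4 := tot_spec T2 2 0 1 2 (by norm_num) (by norm_num) (by norm_num) tab2 1 1 _ k11_012
    exact fin4 _ _ _ _ _ _ _ _ q1 q2 q3 q4 (by decide) (by decide)
  · have q1 := tot_spec T0 0 1 1 1 (by norm_num) (by norm_num) (by norm_num) tab0 0 0 _ k00_111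
    have q2 := tot_spec T0 0 1 1 1 (by norm_num) (by norm_num) (by norm_num) tab0 0 1 _ k01_111
    have q3 := tot_spec T2 2 1 1 1 (by norm_num) (by norm_num) (by norm_num) tab2 1 0 _ k10_111
    have q4 := tot_spec T2 2 1 1 1 (by norm_num) (by norm_num) (by norm_num) tab2 1 1 _ k11_111
    exact fin4 _ _ _ _ _ _ _ _ q1 q2 q3 q4 (by decide) (by decide)
  · have q1 := tot_spec T0 0 2 1 0 (by norm_num) (by norm_num) (by norm_num) tab0 0 0 _ k00_210
    have q2 := tot_spec T0 0 2 1 0 (by norm_num) (by norm_num) (by norm_num) tab0 0 1 _ k01_210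
    have q3 := tot_spec T2 2 2 1 0 (by norm_num) (by norm_num) (by norm_num) tab2 1 0 _ k10_210
    have q4 := tot_spec T2 2 2 1 0 (by norm_num) (by norm_num) (by norm_num) tab2 1 1 _ k11_210
    exact fin4 _ _ _ _ _ _ _ _ q1 q2 q3 q4 (by decide) (by decide)

end Pool.Agent.Helper60.S7
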